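import Pool.Agent.helper78.HFN.Spec

set_option autoImplicit false

open Polynomial Module

namespace Pool.Agent.HFN

noncomputable section

theorem UPP_prod (e : AA → ℕ) (L : List AA) (hL : ∀ C ∈ L, C ≠ 0) :
    (fl (L.map fun C => (C, e C))).prod ≠ 0 ∧
    dX (fl (L.map fun C => (C, e C))).prod = (L.map fun C => e C * dX C).sum ∧
    dY (fl (L.map fun C => (C, e C))).prod = (L.map fun C => e C * dY C).sum := by
  induction L with
  | nil =>
    refine ⟨?_, ?_, ?_⟩
    · simp [fl]
    · simp [fl]
    · simp [fl]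
  | cons C L ih =>
    have hC : C ≠ 0 := hL C List.mem_cons_self
    obtain ⟨h1, h2, h3⟩ := ih fun D hD => hL D (List.mem_cons_of_mem _ hD)
    have hfl : (fl ((C :: L).map fun C => (C, e C))).prod = C ^ (e C) * (fl (L.map fun C => (C, e C))).prod := by
      unfold fl
      rw [List.map_cons, List.flatMap_cons, List.prod_append, List.prod_replicate]
    have hp : C ^ (e C) ≠ 0 := pow_ne_zero _ hC
    rw [hfl]
    refine ⟨mul_ne_zero hp h1, ?_, ?_⟩
    · rw [dX_mul hp h1, dX_pow, h2, List.map_cons, List.sum_cons]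
    · rw [dY_mul hp h1, dY_pow, h3, List.map_cons, List.sum_cons]

theorem UPP_sum (Z : Finset (ℂ × ℂ)) (i j : ℕ) (e : AA → ℕ)
    (he : ∀ C, ex (nn Z C) (ip i j C) + e C * ip i j C = cc (e C) * nn Z C) (L : List AA) :
    ((L.map fun C => (C, e C)).map fun p => cc p.2 * nn Z p.1).sum =
      (L.map fun C => ex (nn Z C) (ip i j C)).sum + (i * (L.map fun C => e C * dY C).sum + j * (L.map fun C => e C * dX C).sum) := by
  induction L with
  | nil => simp
  | cons C L ih =>
    simp only [List.map_cons, List.sum_cons]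
    rw [ih, ← he C]
    unfold ip
    ring

theorem UPP_le (e : AA → ℕ) (he : ∀ C, e C ≤ 2) (L : List AA) (g : AA → ℕ) :
    (L.map fun C => e C * g C).sum ≤ 2 * (L.map g).sum := by
  induction L with
  | nil => simp
  | cons C L ih =>
    simp only [List.map_cons, List.sum_cons]
    have h1 : e C * g C ≤ 2 * g C := Nat.mul_le_mul_right _ (he C)
    omega

theorem UPP (hUPA : UPA_stmt) (hUPB : UPB_stmt) : UPP_stmt := by
  intro Z L hL i j hi hj
  classical
  let e : AA → ℕ := fun C => if 2 * nn Z C ≤ ip i j C then 0 else if nn Z C ≤ ip i j C then 1 else 2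
  have he2 : ∀ C, e C ≤ 2 := by
    intro C
    show (if 2 * nn Z C ≤ ip i j C then 0 else if nn Z C ≤ ip i j C then 1 else 2) ≤ 2
    split_ifs <;> omega
  have hex : ∀ C, ex (nn Z C) (ip i j C) + e C * ip i j C = cc (e C) * nn Z C := by
    intro C
    show ex (nn Z C) (ip i j C) + (if 2 * nn Z C ≤ ip i j C then 0 else if nn Z C ≤ ip i j C then 1 else 2) * ip i j C =
      cc (if 2 * nn Z C ≤ ip i j C then 0 else if nn Z C ≤ ip i j C then 1 else 2) * nn Z C
    generalize nn Z C = n
    generalize ip i j C = d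
    by_cases h1 : 2 * n ≤ d
    · rw [if_pos h1]
      simp only [ex, cc, if_true]
      omega
    · by_cases h2 : n ≤ d
      · rw [if_neg h1, if_pos h2]
        have h3 : cc 1 = 2 := by simp [cc]
        rw [h3]
        unfold ex
        omega
      · rw [if_neg h1, if_neg h2]
        have h3 : cc 2 = 3 := by simp [cc]
        rw [h3]
        unfold ex
        omega
  have h0 : ∀ C ∈ L, C ≠ 0 := fun C hC => (hL.1 C hC).ne_zero
  obtain ⟨hB0, hBX, hBY⟩ := UPP_prod e L h0
  set B : AA := (fl (L.map fun C => (C, e C))).prod with hB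
  set b : ℕ := (L.map fun C => e C * dX C).sum with hb
  set b' : ℕ := (L.map fun C => e C * dY C).sum with hb'
  have hbi : b ≤ 2 * (L.map dX).sum := UPP_le e he2 L dX
  have hbj : b' ≤ 2 * (L.map dY).sum := UPP_le e he2 L dY
  have h1 := hUPA Z B i j hB0 (by rw [hBX]; omega) (by rw [hBY]; omega)
  have h2 := hUPB Z (L.map fun C => (C, e C)) (by
    intro p hp
    obtain ⟨C, _, rfl⟩ := List.mem_map.1 hp
    exact he2 C) (by
    have : (L.map fun C => (C, e C)).map Prod.fst = L := by
      rw [List.map_map]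
      exact List.map_id L
    rw [this]
    exact hL)
  rw [← hB, UPP_sum Z i j e hex L] at h2
  have h3 : ((L.map fun C => (C, e C)).map fun p => dX p.1) = L.map dX := by
    rw [List.map_map]
    rfl
  have h4 : ((L.map fun C => (C, e C)).map fun p => dY p.1) = L.map dY := by
    rw [List.map_map]
    rfl
  rw [h3, h4] at h2
  rw [hBX, hBY] at h1
  rw [← hb, ← hb'] at h2
  have h5 : (i + 1 - b) * (j + 1 - b') + i * b' + j * b + b + b' = (i + 1) * (j + 1) + b * b' := by
    obtain ⟨u, hu⟩ : ∃ u, i + 1 = b + u := ⟨i + 1 - b, by omega⟩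
    obtain ⟨v, hv⟩ : ∃ v, j + 1 = b' + v := ⟨j + 1 - b', by omega⟩
    rw [hu, hv]
    have h6 : b + u - b = u := by omega
    have h7 : b' + v - b' = v := by omega
    rw [h6, h7]
    have h8 : i * b' + b' = (b + u) * b' := by rw [← hu]; ring
    have h9 : j * b + b = (b' + v) * b := by rw [← hv]; ring
    nlinarith
  have h10 : 0 ≤ b * b' := Nat.zero_le _
  linarith

end

end Pool.Agent.HFN
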